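import Pool.Agent.Run7.h401.XH.Tr

set_option autoImplicit false

/-!
# Discs with best placed holes are determined by their spectrum

Let `D` be an open disc of radius `R` minus `n` disjoint closed discs of radius `r`. The clearance of
such a placement of holes is the least of the distances between two holes and between a hole and the
outer circle. For `3 ≤ n ≤ 7` we show: if the placement has the largest possible clearance, then
every bounded plane domain `Ω` with smooth boundary, all but finitely many of whose Dirichlet
eigenvalues agree with those of `D`, is congruent to `D`. (For `n = 6` we assume that no hole is in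
the centre of the disc and that `R / r` is not `4` or `9`; the best placement is not unique then.)

Main idea. The library H212AN (a starting project) shows that `Ω` is a disc of radius `R` with `n`
holes of radius `r` with the same heat trace as `D`, and compares the contributions to the heat trace
of Brownian loops which meet two boundary components at distance `x`, as long as `x` is less than
`3 / 2` of the clearance. So the clearances agree, and the claim follows from elementary geometry:
the placements of largest clearance for `n ≤ 5` and `n = 7` are unique, and for `n = 6` the other best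
placements have a hole in the centre; these have `5` distances between a hole and the outer circle
which are equal to the clearance, instead of `6`, and at most `9` such distances between two holes, so
the heat traces can agree only if `√(R / r)` is an integer less than `4`.
-/

open Set Metric Filter
open Pool.Agent.W594.AN (ClosedCurve dirichletEigenvalue)
open scoped Real

namespace Pool.Agent.Results.MP_5b0138_an.BestPlacedHoles

/-- A bounded plane domain with smooth boundary: a bounded connected open set whose boundary is the
union of finitely many disjoint embedded smooth closed curves. -/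
def IsSmoothDomain (Ω : Set ℂ) : Prop :=
  IsOpen Ω ∧ IsConnected Ω ∧ Bornology.IsBounded Ω ∧ ∃ (n : ℕ) (c : Fin n → ClosedCurve),
    frontier Ω = (⋃ i, range (c i).γ) ∧
    Pairwise fun i j => Disjoint (range (c i).γ) (range (c j).γ)

/-- The disc with centre `z` and radius `R` with `n` holes of radius `r` with centres `w i`. -/
def discWithHoles (n : ℕ) (R r : ℝ) (z : ℂ) (w : Fin n → ℂ) : Set ℂ :=
  ball z R \ ⋃ i, closedBall (w i) r

/-- The clearance is at least `g`: the holes have distance at least `g` from each other and from the
outer circle. -/
def HasClearance (n : ℕ) (R r : ℝ) (z : ℂ) (w : Fin n → ℂ) (g : ℝ) : Prop :=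
  (∀ i, dist (w i) z + r + g ≤ R) ∧ ∀ i j, i ≠ j → 2 * r + g ≤ dist (w i) (w j)

/-- The holes are best placed: their clearance is positive, and it is the largest possible clearance
of `n` holes of radius `r` in the disc. -/
def BestPlaced (n : ℕ) (R r : ℝ) (z : ℂ) (w : Fin n → ℂ) : Prop :=
  (∃ g > 0, HasClearance n R r z w g) ∧
    ∀ (v : Fin n → ℂ) (g : ℝ), HasClearance n R r z v g → HasClearance n R r z w g

/-- `D` is determined: every bounded plane domain with smooth boundary all but finitely many of whose
Dirichlet eigenvalues agree with those of `D` is congruent to `D`. -/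
def Determined (D : Set ℂ) : Prop :=
  ∀ Ω : Set ℂ, IsSmoothDomain Ω →
    (∀ᶠ k in atTop, dirichletEigenvalue D k = dirichletEigenvalue Ω k) →
    ∃ φ : ℂ ≃ᵢ ℂ, φ '' D = Ω

theorem result (n : ℕ) (R r : ℝ) (z : ℂ) (w : Fin n → ℂ) (hn3 : 3 ≤ n) (hn7 : n ≤ 7) (hr : 0 < r)
    (hb : BestPlaced n R r z w) (h6 : n = 6 → (∀ i, w i ≠ z) ∧ R ≠ 4 * r ∧ R ≠ 9 * r) :
    Determined (discWithHoles n R r z w) := by
  intro Ω hΩ hiso
  obtain ⟨h1, h2, h3, m, c, h4, h5⟩ := hΩ
  obtain ⟨⟨g, hg, hc1, hc2⟩, hbest⟩ := hb
  have hw : Pool.Agent.H212AN.OKn n R r (fun i => w i - z) := by
    refine ⟨hr, fun i => ?_, fun i j hij => ?_⟩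
    · have := hc1 i
      rw [dist_eq_norm] at this
      linarith
    · have := hc2 i j hij
      rw [dist_sub_right]
      linarith
  refine Pool.Agent.Run7.h401.XH.best_z (by omega) hn7 hw ?_ h6
    ⟨h1, h2, h3, h4, h5⟩ hiso
  intro v g' hv
  obtain ⟨k1, k2⟩ := hbest (fun i => v i + z) g' ⟨fun i => by
    rw [dist_eq_norm, add_sub_cancel_right]
    exact hv.1 i, fun i j hij => by
    rw [dist_eq_norm, add_sub_add_right_eq_sub]
    exact hv.2 i j hij⟩
  refine ⟨fun i => ?_, fun i j hij => ?_⟩
  · have := k1 i
    rwa [dist_eq_norm] at this
  · have := k2 i j hij
    rwa [dist_eq_norm, ← sub_sub_sub_cancel_right _ _ z] at this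

end Pool.Agent.Results.MP_5b0138_an.BestPlacedHoles
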