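import Pool.Agent.Run7.h858.KT.Main

set_option autoImplicit false

/-!
# Two convex kites with the same Dirichlet spectrum are congruent

A convex kite is a convex quadrilateral with a vertex `A` whose two sides have the same length, such
that the two sides of the opposite vertex `C` also have the same length. Two pairs of opposite sides
of a kite always have the same distance; so the kites, apart from the rhombi, lie on the hypersurface
of the space of convex quadrilaterals which is excluded in
`Pool.Agent.Results.MP_5b0138_an.ConvexQuadrilaterals`.

Main idea: let the kite not be a rhombus. After the three classical heat invariants are subtracted,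
there remains, up to a much smaller error, twice the measure of the Brownian loops which come round
both vertices of one of the shorter sides, as the two shorter sides are mirror images: the loops
which come round both of them are exponentially rarer. So the heat trace determines the length `l` of
the shorter sides and the two angles at such a side, as an unordered pair. Let `s` be the cotangent of
the angle between a shorter and a longer side, `s'` the cotangent of the angle between the two shorter
sides, and `a` the distance of the far end of a longer side from the line of the adjacent shorter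
side. Then `s + s' < 0`, the area is `l a` and the perimeter is `2 l + 2 a √(1 + s ^ 2)`. So the area
and the perimeter determine `a` and `|s|`, which tells `s` from `s'`.
-/

open Set Filter
open Pool.Agent.W780.PG (IsConvexPolygon region)
open Pool.Agent.W703.GP (dirichletEigenvalue)

namespace Pool.Agent.Results.MP_5b0138_an.Kites

/-- the vertices `p m` and `p (m + 2)` are both at the same distance from `p (m + 1)` and
`p (m + 3)` -/
def IsKite (p : Fin (1 + 3) → ℂ) : Prop :=
  ∃ m : Fin (1 + 3), dist (p m) (p (m + 1)) = dist (p m) (p (m + 3)) ∧
    dist (p (m + 2)) (p (m + 1)) = dist (p (m + 2)) (p (m + 3))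

theorem IsKite.at {p : Fin (1 + 3) → ℂ} (h : IsKite p) : ∃ k, Run7.h858.KT.KiteAt p k := by
  obtain ⟨m, h1, h2⟩ := h
  refine ⟨m + 3, ?_⟩
  have e1 : m + 3 + 1 = m := (by decide : ∀ m : Fin (1 + 3), m + 3 + 1 = m) m
  have e2 : m + 3 + 3 = m + 2 := (by decide : ∀ m : Fin (1 + 3), m + 3 + 3 = m + 2) m
  have e3 : m + 3 + 2 = m + 1 := (by decide : ∀ m : Fin (1 + 3), m + 3 + 2 = m + 1) m
  unfold Run7.h858.KT.KiteAt
  rw [e1, e2, e3]
  rw [dist_comm, dist_eq_norm, dist_eq_norm] at h1
  rw [dist_eq_norm, dist_eq_norm] at h2
  exact ⟨h1, h2.symm⟩

/-- `p`, `q : Fin (1 + 3) → ℂ` with `IsConvexPolygon p`, `IsConvexPolygon q` list the vertices of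
arbitrary convex quadrilaterals `region p`, `region q`, in counterclockwise order; both are kites. The
Dirichlet eigenvalues number `k`, with multiplicity, defined by the min-max formula, agree for all but
finitely many `k`, and `φ : ℂ ≃ᵢ ℂ` is an isometry of the plane. -/
theorem result (p q : Fin (1 + 3) → ℂ) (hp : IsConvexPolygon p) (hq : IsConvexPolygon q)
    (hkp : IsKite p) (hkq : IsKite q)
    (h : ∀ᶠ k in atTop, dirichletEigenvalue (region p) k = dirichletEigenvalue (region q) k) :
    ∃ φ : ℂ ≃ᵢ ℂ, φ '' region p = region q := by
  obtain ⟨k, hk⟩ := hkp.at
  obtain ⟨j, hj⟩ := hkq.at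
  exact Run7.h858.KT.kites hp hq hk hj (Pool.Agent.R225.LP.almost hp hq h)

end Pool.Agent.Results.MP_5b0138_an.Kites
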