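import Pool.Agent.Run7.h963.IS.Wheel

set_option autoImplicit false

/-!
# Discs with rigidly placed equal holes

Let `D(w)` be the open disc of radius `R` around `0` minus `n ≥ 2` disjoint closed discs (holes) of
radius `r` with the centres `w 0, …, w (n - 1)`. The gaps of `w` are the distances between two holes
and between a hole and the outer circle. A gap is visible if it is less than `3 / 2` times the least
gap. We consider the bar framework which consists of the centre of the disc, the centres of the
holes, a bar between two holes for every visible gap between two holes, and a bar from the centre of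
the disc to the hole for every visible gap between a hole and the outer circle. As usual, `w` is
rigid if every velocity field of the centres which does not change the visible gaps to first order is
a rotation around `0`. We call `w` stress rigid if only its linear images satisfy all its equilibrium
stresses (the shared stress kernel is minimal). By theorems of Connelly, Gortler-Healy-Thurston and
Jackson-Jordan, for `n ≥ 3` almost all frameworks with a given graph have both properties (and are
globally rigid) if the graph is 3-connected and stays rigid after the removal of any bar; otherwise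
almost none has them. We show:

1. every rigid placement is isolated among the placements with the same spectrum, up to rotation;
2. for almost every rigid placement `w`, up to congruence only finitely many bounded domains with
   smooth boundary have the spectrum of `D(w)`;
3. for almost every rigid and stress rigid placement `w` of `n ≥ 3` holes, every bounded domain with
   smooth boundary and the spectrum of `D(w)` is congruent to `D(w)`;
4. all wheels are rigid and stress rigid: the outer gap of every hole and the gaps of cyclically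
   consecutive holes are visible, and the centres of two consecutive holes are not on one line with
   `0`. For every `n ≥ 3`, the vertices of a regular `n`-gon form such a wheel if the least gap `h`
   between the holes and the gaps `o` to the outer circle satisfy `2 h < 3 o` and `2 o < 3 h`.

Main idea. By the library H212AN (a starting project) a smooth domain with the spectrum of `D(w)` is
congruent to some `D(w')`, and the visible gaps of `w` and `w'` agree with their multiplicities, except
possibly that, at finitely many exceptional values, gaps between holes are confused with gaps to the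
outer circle. For 1, the visible gaps of `w'` near `w` agree with those of `w` one by one, since the
contributions of all gaps to the heat trace are positive; and infinitesimal rigidity implies local
rigidity. For 2, choose `2 n - 1` visible gaps which are independent at `w`. By Sard's theorem and a
change of variables, for almost every `w` their values are regular values of all the maps given by
`2 n - 1` gaps, so they are attained by finitely many `w'` only. For 3, let `w'` have the same visible
gaps, attached to the pairs of holes in some unknown way. Near a generic `w`, the inverse function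
theorem moves `w'` with `w`, and every polynomial relation between the squares of the visible gaps of
`w` holds for the corresponding ones of `w'`; so the tangent spaces of the two measurement varieties
agree. If some combination of the edge vectors of `w'` had a different second fundamental form, stress
rigidity would fail; it follows that all corresponding edge vectors of `w'` are those of `w` up to one
common rotation or reflection and signs. The generic placement has no integral relations between its
centres besides the obvious ones, so the correspondence of the edges preserves cycles; since the graph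
is 3-connected, by Whitney's argument it comes from a bijection of the holes.
-/

open MeasureTheory Set Metric Filter
open Pool.Agent.W594.AN (ClosedCurve dirichletEigenvalue)
open scoped Real RealInnerProductSpace ComplexConjugate

namespace Pool.Agent.Results.MP_5b0138_an.RigidPlacements

/-- A bounded plane domain with smooth boundary: a bounded connected open set whose boundary is the
union of finitely many disjoint embedded smooth closed curves. -/
def IsSmoothDomain (Ω : Set ℂ) : Prop :=
  IsOpen Ω ∧ IsConnected Ω ∧ Bornology.IsBounded Ω ∧ ∃ (n : ℕ) (c : Fin n → ClosedCurve),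
    frontier Ω = (⋃ i, range (c i).γ) ∧
    Pairwise fun i j => Disjoint (range (c i).γ) (range (c j).γ)

/-- The disc with centre `0` and radius `R` with `n` holes of radius `r` with centres `w i`. -/
def discWithHoles {n : ℕ} (R r : ℝ) (w : Fin n → ℂ) : Set ℂ :=
  ball 0 R \ ⋃ i, closedBall (w i) r

/-- The holes are inside the disc and disjoint. -/
def Placement {n : ℕ} (R r : ℝ) (w : Fin n → ℂ) : Prop :=
  (∀ i, ‖w i‖ + r < R) ∧ ∀ i j, i ≠ j → 2 * r < dist (w i) (w j)

/-- The distance between the holes number `i` and `j` or, if `i = j`, between this hole and the outer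
circle. -/
noncomputable def gap {n : ℕ} (R r : ℝ) (w : Fin n → ℂ) (i j : Fin n) : ℝ :=
  if i = j then R - r - ‖w i‖ else dist (w i) (w j) - 2 * r

/-- The gap is visible: it is less than `3 / 2` times the least gap. -/
def Visible {n : ℕ} (R r : ℝ) (w : Fin n → ℂ) (i j : Fin n) : Prop :=
  ∀ k l, gap R r w i j < 3 / 2 * gap R r w k l

/-- The vector from the centre number `j` or, if `i = j`, from the centre of the disc, to the centre
number `i`; also, the difference of the velocities. -/
def edge {n : ℕ} (v : Fin n → ℂ) (i j : Fin n) : ℂ := if i = j then v i else v i - v j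

/-- Infinitesimal rigidity: if the velocities `v i` of the centres `w i` do not change the visible
gaps to first order, they are the velocities of a rotation around `0`. -/
def Rigid {n : ℕ} (R r : ℝ) (w : Fin n → ℂ) : Prop :=
  ∀ v : Fin n → ℂ, (∀ i j, Visible R r w i j → ⟪edge w i j, edge v i j⟫ = 0) →
    ∃ c : ℝ, ∀ i, v i = c * Complex.I * w i

/-- The numbers `ω i j` are an equilibrium stress of the visible gaps of `w`: no force acts on a hole. -/
def IsStress {n : ℕ} (R r : ℝ) (w : Fin n → ℂ) (ω : Fin n → Fin n → ℝ) : Prop :=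
  (∀ i j, ¬Visible R r w i j → ω i j = 0) ∧
    ∀ u : Fin n → ℂ, ∑ i, ∑ j, ω i j * ⟪edge w i j, edge u i j⟫ = 0

/-- If `v` satisfies all equilibrium stresses of the visible gaps of `w`, it is a linear image
of `w`. -/
def StressRigid {n : ℕ} (R r : ℝ) (w : Fin n → ℂ) : Prop :=
  ∀ v : Fin n → ℂ,
    (∀ ω, IsStress R r w ω → ∀ u : Fin n → ℂ, ∑ i, ∑ j, ω i j * ⟪edge v i j, edge u i j⟫ = 0) →
    ∃ α β : ℂ, ∀ i, v i = α * w i + β * conj (w i)

/-- All outer gaps and all gaps of two consecutive holes (in the cyclic order) are visible, and two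
consecutive centres are never on one line with `0`. -/
def IsWheel {n : ℕ} (R r : ℝ) (w : Fin n → ℂ) : Prop :=
  (∀ i, Visible R r w i i) ∧
    ∀ i j : Fin n, (j : ℕ) = (i + 1) % n → Visible R r w i j ∧ (w i * conj (w j)).im ≠ 0

/-- All but finitely many of the Dirichlet eigenvalues agree. -/
def SameSpectrum (D D' : Set ℂ) : Prop :=
  ∀ᶠ k in atTop, dirichletEigenvalue D k = dirichletEigenvalue D' k

/-- Congruence. -/
def Congruent (D D' : Set ℂ) : Prop := ∃ φ : ℂ ≃ᵢ ℂ, φ '' D = D'

/-- The placement `w'` is obtained from `w` by a rotation around `0`. -/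
def IsRotation {n : ℕ} (w w' : Fin n → ℂ) : Prop := ∃ u : ℂ, ‖u‖ = 1 ∧ ∀ i, w' i = u * w i

/-- The vertices of a regular `n`-gon of circumradius `ρ`. -/
noncomputable def ring (n : ℕ) (ρ : ℝ) (j : Fin n) : ℂ :=
  ρ * Complex.exp ((2 * π * (j : ℕ) / n : ℝ) * Complex.I)

section bridge

open Run7.h963.IS Pool.Agent.H212AN

variable {n : ℕ} {R r : ℝ}

lemma gap_self (w : Fin n → ℂ) (i : Fin n) : gap R r w i i = gp R r w (Sum.inr i) := by
  simp [gap, gp, ogap]

lemma gap_lt (w : Fin n → ℂ) {i j : Fin n} (h : i < j) :
    gap R r w i j = gp R r w (Sum.inl ⟨(i, j), h⟩) := by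
  simp [gap, gp, hgap, h.ne]

lemma gap_symm (w : Fin n → ℂ) (i j : Fin n) : gap R r w i j = gap R r w j i := by
  unfold gap
  by_cases h : i = j
  · subst h
    rfl
  · rw [if_neg h, if_neg (Ne.symm h), dist_comm]

lemma exists_ed (w : Fin n → ℂ) (i j : Fin n) : ∃ e : Ed n, gap R r w i j = gp R r w e ∧
    ∀ w v : Fin n → ℂ, ⟪edge w i j, edge v i j⟫ = ⟪Lk e w, Lk e v⟫ := by
  rcases lt_trichotomy i j with h | h | h
  · refine ⟨Sum.inl ⟨(i, j), h⟩, gap_lt w h, fun w v => ?_⟩
    simp [edge, h.ne]
  · subst h
    refine ⟨Sum.inr i, gap_self w i, fun w v => ?_⟩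
    simp [edge]
  · refine ⟨Sum.inl ⟨(j, i), h⟩, by rw [gap_symm]; exact gap_lt w h, fun w v => ?_⟩
    unfold edge
    rw [if_neg h.ne', if_neg h.ne', Lk_inl, Lk_inl, ← neg_sub (w j), ← neg_sub (v j),
      inner_neg_neg]

lemma of_ed (w : Fin n → ℂ) (e : Ed n) : ∃ i j : Fin n, gap R r w i j = gp R r w e ∧
    ∀ w v : Fin n → ℂ, ⟪edge w i j, edge v i j⟫ = ⟪Lk e w, Lk e v⟫ := by
  rcases e with p | i
  · refine ⟨p.1.1, p.1.2, gap_lt w p.2, fun w v => ?_⟩
    have h : p.1.1 ≠ p.1.2 := ne_of_lt p.2
    simp [edge, h]
  · refine ⟨i, i, gap_self w i, fun w v => ?_⟩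
    simp [edge]

lemma visible_iff (w : Fin n → ℂ) {i j : Fin n} {e : Ed n} (h : gap R r w i j = gp R r w e) :
    Visible R r w i j ↔ Vis R r w e := by
  constructor
  · intro hv e'
    obtain ⟨k, l, h1, -⟩ := of_ed (R := R) (r := r) w e'
    rw [← h, ← h1]
    exact hv k l
  · intro hv k l
    obtain ⟨e', h1, -⟩ := exists_ed (R := R) (r := r) w k l
    rw [h, h1]
    exact hv e'

lemma rigid_iff (w : Fin n → ℂ) : Rigid R r w ↔ Rg R r w := by
  constructor
  · intro h v hv
    refine h v fun i j hij => ?_
    obtain ⟨e, h1, h2⟩ := exists_ed (R := R) (r := r) w i j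
    rw [h2]
    exact hv e ((visible_iff w h1).1 hij)
  · intro h v hv
    refine h v fun e he => ?_
    obtain ⟨i, j, h1, h2⟩ := of_ed (R := R) (r := r) w e
    rw [← h2]
    exact hv i j ((visible_iff w h1).2 he)

lemma tg_of (w : Fin n → ℂ) (h : StressRigid R r w) : Tg {e | Vis R r w e} w := by
  intro v hv
  refine h v fun ω hω u => ?_
  obtain ⟨u', hu'⟩ := hv u
  rw [← hω.2 u']
  refine Finset.sum_congr rfl fun i _ => Finset.sum_congr rfl fun j _ => ?_
  by_cases hij : Visible R r w i j
  · obtain ⟨e, h1, h2⟩ := exists_ed (R := R) (r := r) w i j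
    rw [h2, h2, hu' e ((visible_iff w h1).1 hij)]
  · rw [hω.1 i j hij]
    ring

lemma edge_self (v : Fin n → ℂ) (i : Fin n) : edge v i i = v i := by simp [edge]

lemma edge_ne (v : Fin n → ℂ) {i j : Fin n} (h : i ≠ j) : edge v i j = v i - v j := by
  simp [edge, h]

lemma next_iff {k : ℕ} (i j : Fin (k + 1)) :
    (j : ℕ) = (i + 1) % (k + 1) ↔ j = i + 1 := by
  have h1 : ((i + 1 : Fin (k + 1)) : ℕ) = ((i : ℕ) + 1) % (k + 1) := by
    rw [Fin.val_add, Fin.val_one', Nat.add_mod_mod]
  rw [Fin.ext_iff, h1]

lemma next_ne {k : ℕ} (hk : 1 ≤ k) (i : Fin (k + 1)) : i ≠ i + 1 := by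
  intro h
  have h1 := (next_iff i (i + 1)).2 rfl
  rw [← h] at h1
  have h2 := i.2
  rcases Nat.lt_or_ge ((i : ℕ) + 1) (k + 1) with h3 | h3
  · rw [Nat.mod_eq_of_lt h3] at h1
    omega
  · have h4 : (i : ℕ) + 1 = k + 1 := by omega
    rw [h4, Nat.mod_self] at h1
    omega

lemma wheel_cx {k : ℕ} (hk : 1 ≤ k) {w : Fin (k + 1) → ℂ} (h : IsWheel R r w)
    (i : Fin (k + 1)) : cx w i ≠ 0 := by
  have h1 := (h.2 i (i + 1) ((next_iff i _).2 rfl)).2
  intro h2
  apply h1
  unfold cx at h2
  rw [Complex.mul_im, Complex.conj_re, Complex.conj_im]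
  linarith

/-- wheels are stress rigid -/
lemma wheel_stressRigid {k : ℕ} (hk : 1 ≤ k) {w : Fin (k + 1) → ℂ} (h : IsWheel R r w) :
    StressRigid R r w := by
  obtain ⟨ρ, s, hr, hrs⟩ := exists_stress (wheel_cx hk h)
  intro v hv
  let ω : Fin (k + 1) → Fin (k + 1) → ℝ := fun i j =>
    (if j = i then s i else 0) + if j = i + 1 then ρ i else 0
  have hsum : ∀ x y : Fin (k + 1) → ℂ, ∑ i, ∑ j, ω i j * ⟪edge x i j, edge y i j⟫ =
      ∑ i, ⟪Br ρ x i + s i * x i, y i⟫ := by
    intro x y
    have e1 : ∀ i, ∑ j, ω i j * ⟪edge x i j, edge y i j⟫ =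
        s i * ⟪x i, y i⟫ + ρ i * ⟪x i - x (i + 1), y i - y (i + 1)⟫ := by
      intro i
      have e2 : ∀ j, ω i j * ⟪edge x i j, edge y i j⟫ =
          (if j = i then s i * ⟪edge x i j, edge y i j⟫ else 0) +
          if j = i + 1 then ρ i * ⟪edge x i j, edge y i j⟫ else 0 := by
        intro j
        simp only [ω, add_mul, ite_mul, zero_mul]
      simp only [e2]
      rw [Finset.sum_add_distrib, Finset.sum_ite_eq' Finset.univ i,
        Finset.sum_ite_eq' Finset.univ (i + 1), if_pos (Finset.mem_univ _),
        if_pos (Finset.mem_univ _), edge_self, edge_self, edge_ne _ (next_ne hk i),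
        edge_ne _ (next_ne hk i)]
    simp only [e1]
    rw [Finset.sum_add_distrib, sum_Br, ← Finset.sum_add_distrib]
    refine Finset.sum_congr rfl fun i _ => ?_
    simp only [inner_eq, Complex.add_re, Complex.add_im, Complex.re_ofReal_mul,
      Complex.im_ofReal_mul]
    ring
  have hω : IsStress R r w ω := by
    refine ⟨fun i j hij => ?_, fun u => ?_⟩
    · have h1 : j ≠ i := by
        rintro rfl
        exact hij (h.1 j)
      have h2 : j ≠ i + 1 := by
        rintro rfl
        exact hij (h.2 i _ ((next_iff i _).2 rfl)).1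
      simp only [ω, if_neg h1, if_neg h2, add_zero]
    · rw [hsum]
      refine Finset.sum_eq_zero fun i _ => ?_
      rw [hrs i, inner_zero_left]
  have hB : ∀ i, Br ρ v i + s i * v i = 0 := by
    intro i
    have h1 := hv ω hω fun i => Br ρ v i + s i * v i
    rw [hsum] at h1
    have h2 := (Finset.sum_eq_zero_iff_of_nonneg (fun i _ => real_inner_self_nonneg)).1 h1 i
      (Finset.mem_univ i)
    exact inner_self_eq_zero.1 h2
  exact wheel_core (wheel_cx hk h) hr hrs hB

/-- wheels are rigid -/
lemma wheel_rigid {k : ℕ} (hk : 1 ≤ k) {w : Fin (k + 1) → ℂ} (h : IsWheel R r w) :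
    Rigid R r w := by
  rw [rigid_iff]
  have hW : Wheel {e | Vis R r w e} w := by
    refine ⟨fun i => ?_, fun i => ?_, wheel_cx hk h⟩
    · exact (visible_iff w (gap_self w i)).1 (h.1 i)
    · obtain ⟨e, h1, h2⟩ := exists_ed (R := R) (r := r) w i (i + 1)
      refine ⟨e, (visible_iff w h1).1 (h.2 i _ ((next_iff i _).2 rfl)).1, fun x y => ?_⟩
      rw [← h2, edge_ne _ (next_ne hk i), edge_ne _ (next_ne hk i)]
  intro v hv
  exact hW.rg v fun e he => hv e he

/-- regular rings are wheels -/
lemma ring_wheel (hn : 3 ≤ n) {ρ : ℝ} (hρ : 0 < ρ) (h0 : 0 < 2 * ρ * Real.sin (π / n) - 2 * r)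
    (h1 : 2 * (2 * ρ * Real.sin (π / n) - 2 * r) < 3 * (R - r - ρ))
    (h2 : 2 * (R - r - ρ) < 3 * (2 * ρ * Real.sin (π / n) - 2 * r)) :
    IsWheel R r (ring n ρ) := by
  open Pool.Agent.Run7.h401.XH in
  have hn' : (3 : ℝ) ≤ n := by exact_mod_cast hn
  have hge : ∀ i j : Fin n, i ≠ j → 2 * ρ * Real.sin (π / n) - 2 * r ≤ gap R r (ring n ρ) i j := by
    intro i j hij
    have := rg_dist_ge (k := n) hρ.le hij
    simp only [gap, if_neg hij, dist_eq_norm]
    have h3 : ‖ring n ρ i - ring n ρ j‖ = ‖rg n ρ i - rg n ρ j‖ := rfl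
    rw [h3]
    linarith
  have hou : ∀ i : Fin n, gap R r (ring n ρ) i i = R - r - ρ := by
    intro i
    simp only [gap, if_true]
    have h3 : ‖ring n ρ i‖ = ‖rg n ρ i‖ := rfl
    rw [h3, rg_norm n hρ.le]
  have hle : ∀ i j : Fin n, (R - r - ρ ≤ gap R r (ring n ρ) i j) ∨
      (2 * ρ * Real.sin (π / n) - 2 * r ≤ gap R r (ring n ρ) i j) := by
    intro i j
    by_cases hij : i = j
    · subst hij
      left
      rw [hou]
    · right
      exact hge i j hij
  refine ⟨fun i k l => ?_, fun i j hij => ?_⟩
  · rw [hou]
    rcases hle k l with h | h <;> linarith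
  · -- the difference of the indices
    have hx : ∃ s : ℤ, ((i : ℕ) : ℝ) - ((j : ℕ) : ℝ) = -1 + s * n ∧ (s = 0 ∨ s = 1) := by
      rcases Nat.lt_or_ge ((i : ℕ) + 1) n with h3 | h3
      · rw [Nat.mod_eq_of_lt h3] at hij
        refine ⟨0, ?_, Or.inl rfl⟩
        rw [hij]
        push_cast
        ring
      · have h4 : (i : ℕ) + 1 = n := by have := i.2; omega
        rw [h4, Nat.mod_self] at hij
        refine ⟨1, ?_, Or.inr rfl⟩
        have h5 : ((i : ℕ) : ℝ) + 1 = n := by exact_mod_cast h4
        rw [hij]
        push_cast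
        linarith
    obtain ⟨s, hs, hs01⟩ := hx
    have hne : i ≠ j := by
      rintro rfl
      rw [sub_self] at hs
      rcases hs01 with rfl | rfl
      · norm_num at hs
      · push_cast at hs
        linarith
    have hsin : |Real.sin (π * (((i : ℕ) : ℝ) - ((j : ℕ) : ℝ)) / n)| = Real.sin (π / n) := by
      have h3 : 0 < Real.sin (π / n) := sin_pos_k (by omega)
      rcases hs01 with rfl | rfl
      · have e : π * (((i : ℕ) : ℝ) - ((j : ℕ) : ℝ)) / n = -(π / n) := by
          rw [hs]
          push_cast
          ring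
        rw [e, Real.sin_neg, abs_neg, abs_of_pos h3]
      · have e : π * (((i : ℕ) : ℝ) - ((j : ℕ) : ℝ)) / n = π - π / n := by
          rw [hs]
          push_cast
          field_simp
          ring
        rw [e, Real.sin_pi_sub, abs_of_pos h3]
    have hgap : gap R r (ring n ρ) i j = 2 * ρ * Real.sin (π / n) - 2 * r := by
      simp only [gap, if_neg hne, dist_eq_norm]
      have h3 : ‖ring n ρ i - ring n ρ j‖ = ‖rg n ρ i - rg n ρ j‖ := rfl
      rw [h3, rg_dist n hρ.le, hsin]
    refine ⟨fun k l => ?_, ?_⟩
    · rw [hgap]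
      rcases hle k l with h | h <;> linarith
    · have h3 : ring n ρ i * conj (ring n ρ j) = (ρ : ℂ) ^ 2 *
          Complex.exp (((2 * π * (((i : ℕ) : ℝ) - ((j : ℕ) : ℝ)) / n : ℝ) : ℂ) * Complex.I) := by
        unfold ring
        rw [map_mul, Complex.conj_ofReal, ← Complex.exp_conj]
        have e1 : (ρ : ℂ) * Complex.exp (((2 * π * (i : ℕ) / n : ℝ) : ℂ) * Complex.I) *
            ((ρ : ℂ) * Complex.exp (conj (((2 * π * (j : ℕ) / n : ℝ) : ℂ) * Complex.I))) =
            (ρ : ℂ) ^ 2 * (Complex.exp (((2 * π * (i : ℕ) / n : ℝ) : ℂ) * Complex.I) *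
            Complex.exp (conj (((2 * π * (j : ℕ) / n : ℝ) : ℂ) * Complex.I))) := by ring
        rw [e1, ← Complex.exp_add]
        congr 2
        rw [map_mul, Complex.conj_ofReal, Complex.conj_I]
        push_cast
        ring
      rw [h3, ← Complex.ofReal_pow, Complex.im_ofReal_mul, Complex.exp_ofReal_mul_I_im]
      have h5 : 0 < Real.sin (2 * π / n) := by
        apply Real.sin_pos_of_pos_of_lt_pi
        · positivity
        · rw [div_lt_iff₀ (by positivity)]
          nlinarith [Real.pi_pos]
      have h6 : Real.sin (2 * π * (((i : ℕ) : ℝ) - ((j : ℕ) : ℝ)) / n) =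
          -Real.sin (2 * π / n) := by
        rcases hs01 with rfl | rfl
        · have e : 2 * π * (((i : ℕ) : ℝ) - ((j : ℕ) : ℝ)) / n = -(2 * π / n) := by
            rw [hs]
            push_cast
            ring
          rw [e, Real.sin_neg]
        · have e : 2 * π * (((i : ℕ) : ℝ) - ((j : ℕ) : ℝ)) / n = -(2 * π / n) + 2 * π := by
            rw [hs]
            push_cast
            field_simp
          rw [e, Real.sin_add_two_pi, Real.sin_neg]
      rw [h6]
      have h7 : 0 < ρ ^ 2 * Real.sin (2 * π / n) := by positivity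
      intro h8
      linarith

end bridge

/-- `∀ᵐ w : Fin n → ℂ` means: for all `w` outside a Lebesgue null set. -/
theorem result (n : ℕ) (hn : 2 ≤ n) (R r : ℝ) (hR : 0 < R) (hr : 0 < r) :
    -- rigid placements are isolated
    (∀ w : Fin n → ℂ, Placement R r w → Rigid R r w →
      ∃ ε > 0, ∀ w' : Fin n → ℂ, Placement R r w' → (∀ i, ‖w' i - w i‖ < ε) →
        SameSpectrum (discWithHoles R r w) (discWithHoles R r w') → IsRotation w w') ∧
    -- finitely many smooth domains with the spectrum of a generic rigid placement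
    (∀ᵐ w : Fin n → ℂ, Placement R r w → Rigid R r w →
      ∃ S : Set (Set ℂ), S.Finite ∧ ∀ Ω : Set ℂ, IsSmoothDomain Ω →
        SameSpectrum (discWithHoles R r w) Ω → ∃ D ∈ S, Congruent D Ω) ∧
    -- generic rigid and stress rigid placements are determined by the spectrum
    (3 ≤ n → ∀ᵐ w : Fin n → ℂ, Placement R r w → Rigid R r w → StressRigid R r w →
      ∀ Ω : Set ℂ, IsSmoothDomain Ω → SameSpectrum (discWithHoles R r w) Ω →
        Congruent (discWithHoles R r w) Ω) ∧
    -- wheels are rigid and stress rigid
    (∀ w : Fin n → ℂ, IsWheel R r w → Rigid R r w ∧ StressRigid R r w) ∧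
    -- regular rings are wheels
    (3 ≤ n → ∀ ρ h o : ℝ, 0 < ρ → h = 2 * ρ * Real.sin (π / n) - 2 * r → o = R - r - ρ → 0 < h →
      0 < o → 2 * h < 3 * o → 2 * o < 3 * h →
        Placement R r (ring n ρ) ∧ IsWheel R r (ring n ρ)) := by
  refine ⟨fun w hw hg => ?_, ?_, fun hn3 => ?_, fun w hw => ?_, ?_⟩
  · obtain ⟨ε, hε, h⟩ := Run7.h963.IS.m1 hn ⟨hr, hw.1, hw.2⟩ ((rigid_iff w).1 hg)
    exact ⟨ε, hε, fun w' hw' hww' hiso => h w' ⟨hr, hw'.1, hw'.2⟩ hww' hiso⟩
  · filter_upwards [Run7.h963.IS.m3 hn hr hR] with w h hw hg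
    obtain ⟨S, hS, hS2⟩ := h ⟨hr, hw.1, hw.2⟩ ((rigid_iff w).1 hg)
    refine ⟨S, hS, fun Ω hΩ hiso => ?_⟩
    obtain ⟨k1, k2, k3, m, c, k4, k5⟩ := hΩ
    exact hS2 Ω m c ⟨k1, k2, k3, k4, k5⟩ hiso
  · filter_upwards [Run7.h963.IS.m5 hn3 hr hR] with w h hw hg hT Ω hΩ hiso
    obtain ⟨k1, k2, k3, m, c, k4, k5⟩ := hΩ
    exact h ⟨hr, hw.1, hw.2⟩ ((rigid_iff w).1 hg) (tg_of w hT) Ω m c ⟨k1, k2, k3, k4, k5⟩ hiso
  · obtain ⟨k, rfl⟩ : ∃ k, n = k + 1 := ⟨n - 1, by omega⟩
    exact ⟨wheel_rigid (by omega) hw, wheel_stressRigid (by omega) hw⟩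
  · rintro hn3 ρ h o hρ rfl rfl h0 o0 h1 h2
    have hok := Pool.Agent.Run7.h401.XH.ring_ok (n := n) hr hρ (by linarith)
      (by linarith : ρ + r < R)
    exact ⟨⟨hok.2.1, hok.2.2⟩, ring_wheel hn3 hρ h0 h1 h2⟩

end Pool.Agent.Results.MP_5b0138_an.RigidPlacements
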