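import Pool.Agent.Run7.h401.XH.Tr

set_option autoImplicit false

/-!
# Discs with regular rings of holes are determined by their spectrum

Let `D` be an open disc of radius `R` minus `n ≥ 3` disjoint closed discs of radius `r`, whose centres
are the vertices of a regular `n`-gon around the centre of the disc. Let `h` be the distance of
neighbouring holes and `o` the distance from the holes to the outer circle. We show that, for all but
finitely many circumradii of the `n`-gon with `2 h < 3 o` and `2 o < 3 h`, given `n`, `R` and `r`,
every bounded plane domain `Ω` with smooth boundary, all but finitely many of whose Dirichlet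
eigenvalues agree with those of `D`, is congruent to `D`.

Main idea. The library H212AN (a starting project) shows that `Ω` is a disc of radius `R` with `n`
holes of radius `r` with the same heat trace as `D`, and compares the contributions to the heat trace
of Brownian loops which meet two boundary components at distance `x`, as long as `x` is less than
`3 / 2` of the least distance. The number of pairs of holes at distance `x` and the number of holes at
distance `x` from the outer circle enter with different weights. The quotient of the weights depends
on `x`; it would have to be a rational number with bounded numerator and denominator if these numbers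
were different for `D` and for `Ω`, and this happens for finitely many circumradii only. So all holes
of `Ω` have the distance `o` from the outer circle, and the distances between them are at least `h`.
The only such placement is the regular one. The generic results of the starting project do not apply
to these symmetric placements.
-/

open Set Metric Filter
open Pool.Agent.W594.AN (ClosedCurve dirichletEigenvalue)
open scoped Real

namespace Pool.Agent.Results.MP_5b0138_an.RingsOfHoles

/-- A bounded plane domain with smooth boundary: a bounded connected open set whose boundary is the
union of finitely many disjoint embedded smooth closed curves. -/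
def IsSmoothDomain (Ω : Set ℂ) : Prop :=
  IsOpen Ω ∧ IsConnected Ω ∧ Bornology.IsBounded Ω ∧ ∃ (n : ℕ) (c : Fin n → ClosedCurve),
    frontier Ω = (⋃ i, range (c i).γ) ∧
    Pairwise fun i j => Disjoint (range (c i).γ) (range (c j).γ)

/-- The vertices of the regular `n`-gon with centre `z` and circumradius `ρ`. -/
noncomputable def vertex (n : ℕ) (z : ℂ) (ρ : ℝ) (j : Fin n) : ℂ :=
  z + ρ * Complex.exp (((2 * π * (j : ℕ) / n : ℝ) : ℂ) * Complex.I)

/-- The disc with centre `z` and radius `R` with a ring of `n` holes of radius `r`, centred at the
vertices of the regular `n`-gon with centre `z` and circumradius `ρ`. -/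
def discWithRing (n : ℕ) (R r : ℝ) (z : ℂ) (ρ : ℝ) : Set ℂ :=
  ball z R \ ⋃ i, closedBall (vertex n z ρ i) r

/-- `h` is the distance of neighbouring holes, `o` the distance from the holes to the outer circle.
The exceptional set `F` depends on `n`, `R` and `r` only. -/
theorem result (n : ℕ) (hn : 3 ≤ n) (R r : ℝ) (hr : 0 < r) (hR : 0 < R) :
    ∃ F : Set ℝ, F.Finite ∧
      ∀ (ρ h o : ℝ), ρ ∉ F → 0 < ρ → h = 2 * ρ * Real.sin (π / n) - 2 * r → o = R - r - ρ →
        0 < h → 0 < o → 2 * h < 3 * o → 2 * o < 3 * h →
        ∀ (z : ℂ) (Ω : Set ℂ), IsSmoothDomain Ω →
          (∀ᶠ k in atTop, dirichletEigenvalue (discWithRing n R r z ρ) k =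
            dirichletEigenvalue Ω k) →
          ∃ φ : ℂ ≃ᵢ ℂ, φ '' discWithRing n R r z ρ = Ω := by
  refine ⟨Pool.Agent.Run7.h401.XH.Exc n R r,
    Pool.Agent.Run7.h401.XH.Exc_finite (by omega) hr hR, ?_⟩
  intro ρ h o hE hρ hh ho h0 o0 h1 h2 z Ω hΩ hiso
  obtain ⟨k1, k2, k3, m, c, k4, k5⟩ := hΩ
  subst hh
  subst ho
  exact Pool.Agent.Run7.h401.XH.ring_z (by omega) z hr hρ (by linarith) (by linarith) h1 h2 hE
    ⟨k1, k2, k3, k4, k5⟩ hiso

end Pool.Agent.Results.MP_5b0138_an.RingsOfHoles
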